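import Pool.Agent.OPH.StmtsB

/-!
# Squad OPH, row PTE: Prouhet, Tarry, Escott by the pigeonhole principle
-/

set_option autoImplicit false

namespace Pool.Agent.OPH.H37

open Finset Pool.Agent.OPH

theorem sum_aux (l : ℕ) : 2 * ∑ r ∈ range (l + 1), (r + 2) = (l + 1) * (l + 4) := by
  induction l with
  | zero => simp
  | succ l ih => rw [sum_range_succ, mul_add, ih]; ring

theorem card_aux (l : ℕ) :
    (16 * (l + 1) ^ 3) ^ (∑ r ∈ range (l + 1), (r + 2)) < 2 ^ (16 * (l + 1) ^ 3) := by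
  have h1 : 16 * (l + 1) ^ 3 ≤ 2 ^ (4 + 3 * l) := by
    have h : l + 1 ≤ 2 ^ l := Nat.lt_two_pow_self
    calc 16 * (l + 1) ^ 3 ≤ 16 * (2 ^ l) ^ 3 := by gcongr
      _ = 2 ^ (4 + 3 * l) := by rw [pow_add, pow_mul']; norm_num
  calc (16 * (l + 1) ^ 3) ^ (∑ r ∈ range (l + 1), (r + 2))
      ≤ (2 ^ (4 + 3 * l)) ^ (∑ r ∈ range (l + 1), (r + 2)) := Nat.pow_le_pow_left h1 _
    _ = 2 ^ ((4 + 3 * l) * ∑ r ∈ range (l + 1), (r + 2)) := by rw [pow_mul]
    _ < 2 ^ (16 * (l + 1) ^ 3) := by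
        apply Nat.pow_lt_pow_right (by norm_num)
        have h := sum_aux l
        have h2 : 2 * ((4 + 3 * l) * ∑ r ∈ range (l + 1), (r + 2)) =
            (4 + 3 * l) * ((l + 1) * (l + 4)) := by rw [← h]; ring
        have h3 : (4 + 3 * l) * ((l + 1) * (l + 4)) < 2 * (16 * (l + 1) ^ 3) := by
          ring_nf
          nlinarith [sq_nonneg l, Nat.zero_le l, Nat.zero_le (l ^ 2), Nat.zero_le (l ^ 3)]
        omega

theorem exists_pair (l : ℕ) : ∃ S T : Finset ℕ, S ⊆ range (16 * (l + 1) ^ 3) ∧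
    T ⊆ range (16 * (l + 1) ^ 3) ∧ S ≠ T ∧ ∀ r ≤ l, ∑ j ∈ S, j ^ r = ∑ j ∈ T, j ^ r := by
  set N := 16 * (l + 1) ^ 3 with hN
  have hN2 : 2 ≤ N := by
    have : 1 ≤ (l + 1) ^ 3 := Nat.one_le_pow _ _ (by omega)
    omega
  let f : Finset ℕ → Fin (l + 1) → ℕ := fun S r => ∑ j ∈ S, j ^ (r : ℕ)
  have hmaps : ∀ S ∈ (range N).powerset,
      f S ∈ Fintype.piFinset (fun r : Fin (l + 1) => range (N ^ ((r : ℕ) + 2))) := by
    intro S hS
    rw [Finset.mem_powerset] at hS
    rw [Fintype.mem_piFinset]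
    intro r
    rw [Finset.mem_range]
    calc ∑ j ∈ S, j ^ (r : ℕ) ≤ ∑ j ∈ range N, j ^ (r : ℕ) :=
          Finset.sum_le_sum_of_subset hS
      _ ≤ ∑ j ∈ range N, N ^ (r : ℕ) := Finset.sum_le_sum fun j hj =>
          Nat.pow_le_pow_left (Finset.mem_range.1 hj).le _
      _ = N ^ ((r : ℕ) + 1) := by rw [Finset.sum_const, Finset.card_range, smul_eq_mul, pow_succ']
      _ < N ^ ((r : ℕ) + 2) := Nat.pow_lt_pow_right (by omega) (by omega)
  have hcard : (Fintype.piFinset (fun r : Fin (l + 1) => range (N ^ ((r : ℕ) + 2)))).card <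
      (range N).powerset.card := by
    rw [Fintype.card_piFinset, Finset.card_powerset, Finset.card_range]
    simp only [Finset.card_range]
    rw [Finset.prod_pow_eq_pow_sum, Fin.sum_univ_eq_sum_range (fun r => r + 2) (l + 1)]
    exact card_aux l
  obtain ⟨S, hS, T, hT, hST, hf⟩ := Finset.exists_ne_map_eq_of_card_lt_of_maps_to hcard hmaps
  refine ⟨S, T, Finset.mem_powerset.1 hS, Finset.mem_powerset.1 hT, hST, ?_⟩
  intro r hr
  exact congrFun hf ⟨r, by omega⟩

theorem pte : PteStmt := by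
  intro l
  obtain ⟨S, T, hS, hT, hST, hsum⟩ := exists_pair l
  set N := 16 * (l + 1) ^ 3 with hN
  let c : ℕ → ℤ := fun i => (if i ∈ S then 1 else 0) - (if i ∈ T then 1 else 0)
  have hc1 : ∀ i, |c i| ≤ 1 := by
    intro i
    by_cases h1 : i ∈ S <;> by_cases h2 : i ∈ T <;> simp [c, h1, h2]
  have hc2 : ∀ i, N ≤ i → c i = 0 := by
    intro i hi
    have h1 : i ∉ S := fun h => by have := Finset.mem_range.1 (hS h); omega
    have h2 : i ∉ T := fun h => by have := Finset.mem_range.1 (hT h); omega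
    simp [c, h1, h2]
  have hc3 : ∀ r ≤ l, ∑ i ∈ range N, c i * (i : ℤ) ^ r = 0 := by
    intro r hr
    have h := hsum r hr
    have e1 : ∑ i ∈ range N, (if i ∈ S then (1 : ℤ) else 0) * (i : ℤ) ^ r =
        ∑ j ∈ S, (j : ℤ) ^ r := by
      simp only [ite_mul, one_mul, zero_mul]
      rw [Finset.sum_ite_mem, Finset.inter_eq_right.2 hS]
    have e2 : ∑ i ∈ range N, (if i ∈ T then (1 : ℤ) else 0) * (i : ℤ) ^ r =
        ∑ j ∈ T, (j : ℤ) ^ r := by
      simp only [ite_mul, one_mul, zero_mul]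
      rw [Finset.sum_ite_mem, Finset.inter_eq_right.2 hT]
    have e3 : ∑ i ∈ range N, c i * (i : ℤ) ^ r = ∑ j ∈ S, (j : ℤ) ^ r - ∑ j ∈ T, (j : ℤ) ^ r := by
      rw [← e1, ← e2, ← Finset.sum_sub_distrib]
      exact Finset.sum_congr rfl fun i _ => by simp only [c]; ring
    rw [e3]
    have : ((∑ j ∈ S, j ^ r : ℕ) : ℤ) = ((∑ j ∈ T, j ^ r : ℕ) : ℤ) := by rw [h]
    push_cast at this
    rw [this, sub_self]
  have hex : ∃ i, c i ≠ 0 := by
    by_contra hcon
    push Not at hcon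
    apply hST
    ext i
    have := hcon i
    by_cases h1 : i ∈ S <;> by_cases h2 : i ∈ T <;> simp [c, h1, h2] at this ⊢
  classical
  set j₀ := Nat.find hex with hj₀
  have hj1 : c j₀ ≠ 0 := Nat.find_spec hex
  have hj2 : ∀ i < j₀, c i = 0 := fun i hi => by
    have := Nat.find_min hex hi
    push Not at this
    exact this
  have hj3 : j₀ < N := by
    by_contra h
    exact hj1 (hc2 j₀ (by omega))
  refine ⟨fun j => if j + j₀ < N then c (j + j₀) else 0, ?_, ?_, ?_⟩
  · simpa [hj3] using hj1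
  · intro j
    dsimp only
    split
    · exact hc1 _
    · simp
  · intro r hr
    obtain ⟨M, hM⟩ : ∃ M, N = j₀ + M := ⟨N - j₀, by omega⟩
    have hshift : ∑ j ∈ range N, (if j + j₀ < N then c (j + j₀) else 0) * (j : ℤ) ^ r =
        ∑ i ∈ range N, c i * ((i : ℤ) - j₀) ^ r := by
      have e1 : ∑ i ∈ range N, c i * ((i : ℤ) - j₀) ^ r =
          ∑ j ∈ range M, c (j₀ + j) * (j : ℤ) ^ r := by
        rw [hM, Finset.sum_range_add]
        rw [Finset.sum_eq_zero (fun i hi => by rw [hj2 i (Finset.mem_range.1 hi), zero_mul]),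
          zero_add]
        refine Finset.sum_congr rfl fun j _ => ?_
        push_cast
        ring
      have e2 : ∑ j ∈ range N, (if j + j₀ < N then c (j + j₀) else 0) * (j : ℤ) ^ r =
          ∑ j ∈ range M, c (j₀ + j) * (j : ℤ) ^ r := by
        symm
        have hsub : range M ⊆ range N := by
          intro j hj
          rw [Finset.mem_range] at hj ⊢
          omega
        refine (Finset.sum_subset_zero_on_sdiff hsub ?_ ?_)
        · intro j hj
          rw [Finset.mem_sdiff, Finset.mem_range, Finset.mem_range] at hj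
          rw [if_neg (by omega), zero_mul]
        · intro j hj
          rw [Finset.mem_range] at hj
          rw [if_pos (by omega), add_comm j j₀]
      rw [e1, e2]
    rw [hshift]
    have hexp : ∀ i : ℕ, c i * ((i : ℤ) - j₀) ^ r =
        ∑ k ∈ range (r + 1), ((-(j₀ : ℤ)) ^ (r - k) * (r.choose k : ℤ)) * (c i * (i : ℤ) ^ k) := by
      intro i
      rw [sub_eq_add_neg, add_pow, Finset.mul_sum]
      exact Finset.sum_congr rfl fun k _ => by ring
    rw [Finset.sum_congr rfl fun i _ => hexp i, Finset.sum_comm]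
    refine Finset.sum_eq_zero fun k hk => ?_
    rw [← Finset.mul_sum, hc3 k (by rw [Finset.mem_range] at hk; omega), mul_zero]

end Pool.Agent.OPH.H37
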